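import Pool.Agent.MWN.StmtsA
import Pool.Agent.Helper6_MVO.SEQ

/-!
# Block MWN (MP_23468a_al), row NBF

A word which is related to a block word with the letters `0`, `1` is a block word with the letters
`0`, `1` (the same argument as in the row NRM of MWS).
-/

set_option autoImplicit false

namespace Pool.Agent.MWN.H88

open Pool.Agent.Helper14_MV Pool.Agent.Helper2_MV Pool.Agent.MVO Pool.Agent.MWL Pool.Agent.MWS
  Pool.Agent.MWF

theorem blkOk_of_two01 {k : ℕ} {U : ℕ → List ℕ} (h : Two01 k U) : BlkOk k U := by
  intro j hj c hc hs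
  rcases h j hj c hc with h1 | h1 <;> omega

theorem nbf : NbfStmt := by
  intro β hcap hnc k U v hU hr
  have hc := hcap _ _ hr
  have hB : BlkOk k U := blkOk_of_two01 hU
  obtain ⟨p, hp⟩ : ∃ p : ℕ → Bool, p = fun c => decide (2 ≤ c ∧ c ≤ k + 1) := ⟨_, rfl⟩
  have h1 : (asm k U).filter p = seps k := by
    rw [hp]
    exact filter_sep hB
  have h2 : (seps k).Perm (v.filter p) := by
    apply List.perm_iff_count.2
    intro c
    by_cases h : 2 ≤ c ∧ c ≤ k + 1
    · have e1 : (seps k).count c = 1 :=
        List.count_eq_one_of_mem (nodup_seps k) (mem_seps.2 h)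
      have e2 : (v.filter p).count c = v.count c :=
        List.count_filter (by rw [hp]; exact decide_eq_true h)
      have e3 : (asm k U).count c = 1 := count_sep hB h.1 h.2
      have e4 := hc c
      rw [e3] at e4
      rw [e1, e2]
      omega
    · have e1 : (seps k).count c = 0 := List.count_eq_zero.2 (fun hm => h (mem_seps.1 hm))
      have e2 : (v.filter p).count c = 0 := by
        apply List.count_eq_zero.2
        intro hm
        have h3 := (List.mem_filter.1 hm).2
        rw [hp] at h3
        exact h (of_decide_eq_true h3)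
      rw [e1, e2]
  have h3 : RR β (seps k) (v.filter p) := by
    have h4 := hr.filter p
    rw [h1] at h4
    exact h4
  have h4 := Pool.Agent.MVO.H6.seps_keep hnc h2 h3
  rw [hp] at h4
  obtain ⟨V, hV, hw⟩ := dec h4
  refine ⟨V, hw, ?_⟩
  intro j hj c hm
  have hns : NS k c := hV j c hm
  have h5 : c ∈ v := by
    rw [hw]
    exact mem_asm.2 (Or.inr ⟨j, hj, hm⟩)
  have h6 : 0 < v.count c := List.count_pos_iff.2 h5
  have h7 := hc c
  have h8 : 0 < (asm k U).count c := by omega
  rcases mem_asm.1 (List.count_pos_iff.1 h8) with h | ⟨j', hj', hm'⟩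
  · exact absurd h hns
  · exact hU j' hj' c hm'

end Pool.Agent.MWN.H88
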